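import Pool.Agent.Helper76.DE.StN

/-!
# Project PRD (MP_77ff3d_nt), module Va: expected number of visits of the random walk
-/

set_option autoImplicit false

namespace Pool.Agent.Helper41.PRD

open Pool.Agent.Helper76.ND Pool.Agent.Helper76.DE Finset

theorem hVa (hPo : StPo) (hTe : StTe) : StVa := by
  intro T v hv
  obtain ⟨-, P2, -, -, -, P6, -, -, P9⟩ := hPo
  have hq : ∀ t k, 0 ≤ q t k := fun t k => by
    unfold q
    positivity
  have hG : ∀ u, 0 ≤ u * gg u := fun u => (P2 u).2.2.1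
  have hG2 : ∀ u : ℝ, 3 / 4 ≤ u → u ≤ 5 / 4 → 3 / 50 ≤ u * gg u := by
    intro u h1 h2
    have := P6 u h1 h2
    nlinarith
  have hind : ∀ u : ℝ, ind u ≤ 50 / 3 * (u * (5 / 6) * gg (u * (5 / 6)) +
      u * (25 / 18) * gg (u * (25 / 18)) + u * (125 / 54) * gg (u * (125 / 54)) +
      u * (625 / 162) * gg (u * (625 / 162)) + u * (3125 / 486) * gg (u * (3125 / 486))) := by
    intro u
    have g0 := hG (u * (5 / 6))
    have g1 := hG (u * (25 / 18))
    have g2 := hG (u * (125 / 54))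
    have g3 := hG (u * (625 / 162))
    have g4 := hG (u * (3125 / 486))
    unfold ind
    split_ifs with h
    · obtain ⟨h1, h2⟩ := h
      rcases le_or_gt (9 / 10) u with h3 | h3
      · have := hG2 (u * (5 / 6)) (by linarith) (by linarith)
        linarith
      rcases le_or_gt (27 / 50) u with h4 | h4
      · have := hG2 (u * (25 / 18)) (by linarith) (by linarith)
        linarith
      rcases le_or_gt (81 / 250) u with h5 | h5
      · have := hG2 (u * (125 / 54)) (by linarith) (by linarith)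
        linarith
      rcases le_or_gt (243 / 1250) u with h6 | h6
      · have := hG2 (u * (625 / 162)) (by linarith) (by linarith)
        linarith
      · have := hG2 (u * (3125 / 486)) (by linarith) (by linarith)
        linarith
    · positivity
  have hA : ∀ μ : ℝ, 0 < μ → ∑ t ∈ range T, ∑ k ∈ range (t + 1),
      q t k * ((2 ^ t * v / 3 ^ k) * μ * gg ((2 ^ t * v / 3 ^ k) * μ)) ≤ 1 := by
    intro μ hμ
    have h1 := hTe T (v * μ) (mul_pos hv hμ)
    have h2 : phi (v * μ) ≤ 1 := min_le_left _ _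
    have h3 : 0 ≤ ∑ k ∈ range (T + 1), q T k * phi (2 ^ T * (v * μ) / 3 ^ k) :=
      Finset.sum_nonneg fun k _ => mul_nonneg (hq _ _) (P9 _ (by positivity))
    have h4 : ∑ t ∈ range T, ∑ k ∈ range (t + 1),
        q t k * ((2 ^ t * v / 3 ^ k) * μ * gg ((2 ^ t * v / 3 ^ k) * μ)) =
        ∑ t ∈ range T, ∑ k ∈ range (t + 1),
        q t k * ((2 ^ t * (v * μ) / 3 ^ k) * gg (2 ^ t * (v * μ) / 3 ^ k)) := by
      refine Finset.sum_congr rfl fun t _ => Finset.sum_congr rfl fun k _ => ?_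
      have : (2 : ℝ) ^ t * v / 3 ^ k * μ = 2 ^ t * (v * μ) / 3 ^ k := by ring
      rw [this]
    rw [h4, h1]
    linarith
  have key : ∑ t ∈ range T, ∑ k ∈ range (t + 1), q t k * ind (2 ^ t * v / 3 ^ k) ≤
      50 / 3 * (∑ t ∈ range T, ∑ k ∈ range (t + 1),
          q t k * ((2 ^ t * v / 3 ^ k) * (5 / 6) * gg ((2 ^ t * v / 3 ^ k) * (5 / 6))) +
        ∑ t ∈ range T, ∑ k ∈ range (t + 1),
          q t k * ((2 ^ t * v / 3 ^ k) * (25 / 18) * gg ((2 ^ t * v / 3 ^ k) * (25 / 18))) +
        ∑ t ∈ range T, ∑ k ∈ range (t + 1),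
          q t k * ((2 ^ t * v / 3 ^ k) * (125 / 54) * gg ((2 ^ t * v / 3 ^ k) * (125 / 54))) +
        ∑ t ∈ range T, ∑ k ∈ range (t + 1),
          q t k * ((2 ^ t * v / 3 ^ k) * (625 / 162) * gg ((2 ^ t * v / 3 ^ k) * (625 / 162))) +
        ∑ t ∈ range T, ∑ k ∈ range (t + 1),
          q t k * ((2 ^ t * v / 3 ^ k) * (3125 / 486) * gg ((2 ^ t * v / 3 ^ k) * (3125 / 486)))) := by
    simp only [← Finset.sum_add_distrib, Finset.mul_sum]
    refine Finset.sum_le_sum fun t _ => Finset.sum_le_sum fun k _ => ?_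
    calc q t k * ind (2 ^ t * v / 3 ^ k) ≤ _ :=
          mul_le_mul_of_nonneg_left (hind (2 ^ t * v / 3 ^ k)) (hq t k)
      _ = _ := by ring
  have a0 := hA (5 / 6) (by norm_num)
  have a1 := hA (25 / 18) (by norm_num)
  have a2 := hA (125 / 54) (by norm_num)
  have a3 := hA (625 / 162) (by norm_num)
  have a4 := hA (3125 / 486) (by norm_num)
  linarith

end Pool.Agent.Helper41.PRD
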